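import Mathlib
import Pool.Agent.R231.BD.Defs
import Pool.Agent.R231.BD.Shear

set_option autoImplicit false

open Filter Topology Set Metric

namespace Pool.Agent.Results.MP_5d6127_an.SharpBound

open Pool.Agent.R231.BD

/-- the coefficient `a^1_{0,2}` of a map: half the second derivative of `f₁` in `z₂` at `0` -/
noncomputable def a102 (f : ℂ × ℂ → ℂ × ℂ) : ℂ :=
  (1 / 2) * iteratedDeriv 2 (fun ζ : ℂ => (f (0, ζ)).1) 0

/-- the coefficient `a^2_{2,0}` of a map: half the second derivative of `f₂` in `z₁` at `0` -/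
noncomputable def a220 (f : ℂ × ℂ → ℂ × ℂ) : ℂ :=
  (1 / 2) * iteratedDeriv 2 (fun ζ : ℂ => (f (ζ, 0)).2) 0

/-- exchanging the coordinates -/
def sw (f : ℂ × ℂ → ℂ × ℂ) (z : ℂ × ℂ) : ℂ × ℂ := (f z.swap).swap

lemma a220_sw (f : ℂ × ℂ → ℂ × ℂ) : a220 (sw f) = a102 f := rfl

lemma sw_sw (f : ℂ × ℂ → ℂ × ℂ) : sw (sw f) = f := by
  funext z; simp [sw]

lemma a102_sw (f : ℂ × ℂ → ℂ × ℂ) : a102 (sw f) = a220 f := rfl

lemma swap_mem_U2 {z : ℂ × ℂ} (hz : z ∈ U2) : z.swap ∈ U2 := by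
  rw [mem_U2] at hz ⊢
  exact ⟨hz.2, hz.1⟩

lemma norm_swap' (z : ℂ × ℂ) : ‖z.swap‖ = ‖z‖ := by
  rw [Prod.norm_def, Prod.norm_def, max_comm]; rfl

lemma sw_image (f : ℂ × ℂ → ℂ × ℂ) (w : ℂ × ℂ) : w ∈ sw f '' U2 ↔ w.swap ∈ f '' U2 := by
  constructor
  · rintro ⟨z, hz, rfl⟩
    exact ⟨z.swap, swap_mem_U2 hz, by simp [sw]⟩
  · rintro ⟨z, hz, h⟩
    exact ⟨z.swap, swap_mem_U2 hz, by simp [sw, h]⟩

lemma sw_differentiableOn {f : ℂ × ℂ → ℂ × ℂ} (hf : DifferentiableOn ℂ f U2) :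
    DifferentiableOn ℂ (sw f) U2 := by
  have h1 : DifferentiableOn ℂ (fun z : ℂ × ℂ => f z.swap) U2 :=
    hf.comp (by unfold Prod.swap; fun_prop) (fun z hz => swap_mem_U2 hz)
  exact h1.snd.prodMk h1.fst

lemma sw_chain {F : ℝ → ℂ × ℂ → ℂ × ℂ} (hF : NormalLoewnerChain F) :
    NormalLoewnerChain (fun t => sw (F t)) where
  holo t ht := sw_differentiableOn (hF.holo t ht)
  inj t ht := by
    intro z hz w hw h
    have h1 := hF.inj t ht (swap_mem_U2 hz) (swap_mem_U2 hw) (Prod.swap_injective h)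
    exact Prod.swap_injective h1
  zero t ht := by
    have := hF.zero t ht
    simp only [sw, Prod.swap_zero] at *
    rw [this]; rfl
  deriv t ht := by
    have h1 : HasFDerivAt (F t) ((Real.exp t : ℂ) • ContinuousLinearMap.id ℂ (ℂ × ℂ)) 0 := by
      rw [← hF.deriv t ht]
      exact ((hF.holo t ht).differentiableAt (isOpen_U2.mem_nhds zero_mem_U2)).hasFDerivAt
    have hs : HasFDerivAt (fun z : ℂ × ℂ => z.swap)
        ((ContinuousLinearMap.snd ℂ ℂ ℂ).prod (ContinuousLinearMap.fst ℂ ℂ ℂ)) 0 :=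
      ((ContinuousLinearMap.snd ℂ ℂ ℂ).prod (ContinuousLinearMap.fst ℂ ℂ ℂ)).hasFDerivAt
    have hs' : HasFDerivAt (fun z : ℂ × ℂ => z.swap)
        ((ContinuousLinearMap.snd ℂ ℂ ℂ).prod (ContinuousLinearMap.fst ℂ ℂ ℂ))
          ((F t ∘ Prod.swap) (0 : ℂ × ℂ)) :=
      ((ContinuousLinearMap.snd ℂ ℂ ℂ).prod (ContinuousLinearMap.fst ℂ ℂ ℂ)).hasFDerivAt
    have h1' : HasFDerivAt (F t) ((Real.exp t : ℂ) • ContinuousLinearMap.id ℂ (ℂ × ℂ))
        ((0 : ℂ × ℂ).swap) := h1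
    have h2 := hs'.comp (0 : ℂ × ℂ) (h1'.comp (0 : ℂ × ℂ) hs)
    have h3 : HasFDerivAt (sw (F t)) ((Real.exp t : ℂ) • ContinuousLinearMap.id ℂ (ℂ × ℂ)) 0 := by
      refine h2.congr_fderiv ?_
      ext <;> simp
    exact h3.fderiv
  mono s t hs hst := by
    intro w hw
    rw [sw_image] at hw ⊢
    exact hF.mono s t hs hst hw
  normal := by
    intro u hu
    have hu' : ∀ k, sw (u k) ∈ {g | ∃ t : ℝ, 0 ≤ t ∧ g = fun z => (Real.exp (-t) : ℂ) • F t z} := by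
      intro k
      obtain ⟨t, ht, h⟩ := hu k
      refine ⟨t, ht, ?_⟩
      rw [h]
      funext z
      simp [sw]
    obtain ⟨φ, hφ, g, hg⟩ := hF.normal (fun k => sw (u k)) hu'
    refine ⟨φ, hφ, sw g, ?_⟩
    rw [Metric.tendstoLocallyUniformlyOn_iff] at hg ⊢
    intro ε hε z hz
    obtain ⟨t, ht, h⟩ := hg ε hε z.swap (swap_mem_U2 hz)
    refine ⟨Prod.swap ⁻¹' t, ?_, ?_⟩
    · have hc : ContinuousWithinAt (Prod.swap : ℂ × ℂ → ℂ × ℂ) U2 z :=
        continuous_swap.continuousWithinAt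
      have := hc.tendsto_nhdsWithin (t := U2) (fun w hw => swap_mem_U2 hw)
      exact this ht
    · filter_upwards [h] with k hk y hy
      have := hk y.swap hy
      rw [dist_eq_norm] at this ⊢
      rw [← norm_swap'] at this
      simpa [sw] using this

lemma sw_mem_S0M {f : ℂ × ℂ → ℂ × ℂ} {M : ℝ} (hf : f ∈ S0M M) : sw f ∈ S0M M := by
  obtain ⟨⟨F, hF, hF0⟩, hM⟩ := hf
  refine ⟨⟨fun t => sw (F t), sw_chain hF, fun z hz => ?_⟩, fun z hz => ?_⟩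
  · simp only [sw]
    rw [hF0 _ (swap_mem_U2 hz)]
  · simp only [sw]
    rw [norm_swap']
    exact hM _ (swap_mem_U2 hz)

/-- Taylor expansion of order two of a holomorphic function of one variable -/
lemma taylor2 {φ : ℂ → ℂ} (hφ : AnalyticAt ℂ φ 0) :
    (fun y => φ y - (φ 0 + deriv φ 0 * y + (1 / 2) * iteratedDeriv 2 φ 0 * y ^ 2))
      =o[𝓝 0] fun y => y ^ 2 := by
  have h1 := hφ.hasFPowerSeriesAt.isBigO_sub_partialSum_pow 3
  have h2 : (fun y : ℂ => ‖y‖ ^ 3) =o[𝓝 0] fun y : ℂ => y ^ 2 :=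
    ((Asymptotics.isLittleO_pow_pow (𝕜 := ℂ) (show 2 < 3 by norm_num)).norm_left).congr_left
      (fun y => norm_pow y 3)
  refine (h1.trans_isLittleO h2).congr_left (fun y => ?_)
  simp only [zero_add, FormalMultilinearSeries.partialSum, Finset.sum_range_succ,
    Finset.sum_range_zero, FormalMultilinearSeries.ofScalars_apply_eq]
  simp [iteratedDeriv_one, iteratedDeriv_zero]
  left
  ring

/-- uniqueness of the quadratic coefficient -/
lemma coeff_unique {φ : ℂ → ℂ} (hφ : AnalyticAt ℂ φ 0) (h0 : φ 0 = 0) (h1 : deriv φ 0 = 0) {c : ℂ}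
    (hc : (fun y => φ y - c * y ^ 2) =o[𝓝 0] fun y => y ^ 2) :
    (1 / 2) * iteratedDeriv 2 φ 0 = c := by
  have h2 := taylor2 hφ
  have h3 := hc.sub h2
  have h4 : (fun y : ℂ => ((1 / 2) * iteratedDeriv 2 φ 0 - c) * y ^ 2) =o[𝓝 0] fun y => y ^ 2 := by
    refine h3.congr_left (fun y => ?_)
    rw [h0, h1]; ring
  by_contra hne
  have h5 : (1 / 2) * iteratedDeriv 2 φ 0 - c ≠ 0 := sub_ne_zero.2 hne
  have h6 : (fun y : ℂ => y ^ 2) =o[𝓝 0] fun y => y ^ 2 :=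
    (Asymptotics.isLittleO_const_mul_left_iff h5).1 h4
  have h7 : (fun y : ℂ => y ^ 2) =o[𝓝[≠] 0] fun y => y ^ 2 := h6.mono nhdsWithin_le_nhds
  refine Asymptotics.isLittleO_irrefl ?_ h7
  refine Filter.Eventually.frequently ?_
  filter_upwards [self_mem_nhdsWithin] with y hy
  exact pow_ne_zero 2 hy

/-- the coefficient bound behind both estimates: a function `g` bounded by `M` on the bidisc with
`g(0) = 0`, differential `w ↦ w₁` at `0` has `1 + |a_{0,2}| ≤ M` -/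
lemma coeff_bound {g : ℂ × ℂ → ℂ} (hg : DifferentiableOn ℂ g U2) (h0 : g 0 = 0)
    (hd : fderiv ℂ g 0 = ContinuousLinearMap.fst ℂ ℂ ℂ) {M : ℝ} (hM : ∀ z ∈ U2, ‖g z‖ ≤ M) :
    1 + ‖(1 / 2) * iteratedDeriv 2 (fun ζ : ℂ => g (0, ζ)) 0‖ ≤ M := by
  have hgd : HasFDerivAt g (ContinuousLinearMap.fst ℂ ℂ ℂ) 0 := by
    rw [← hd]; exact (hg.differentiableAt (isOpen_U2.mem_nhds zero_mem_U2)).hasFDerivAt
  set A : ℂ := (1 / 2) * iteratedDeriv 2 (fun ζ : ℂ => g (0, ζ)) 0 with hA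
  -- the slice `ζ ↦ g (0, ζ)`
  have hsl : ∀ b : ℂ, ‖b‖ ≤ 1 → DifferentiableOn ℂ (fun ζ : ℂ => g (b * ζ ^ 2, ζ)) (ball 0 1) := by
    intro b hb
    refine hg.comp (f := fun ζ : ℂ => (b * ζ ^ 2, ζ)) (by fun_prop) ?_
    intro ζ hζ
    rw [mem_ball_zero_iff] at hζ
    rw [mem_U2]
    refine ⟨?_, hζ⟩
    simp only [norm_mul, norm_pow]
    calc ‖b‖ * ‖ζ‖ ^ 2 ≤ 1 * ‖ζ‖ ^ 2 := by gcongr
      _ < 1 := by
        rw [one_mul]
        exact pow_lt_one₀ (norm_nonneg _) hζ (by norm_num)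
  have hsld : ∀ b : ℂ, HasDerivAt (fun ζ : ℂ => g (b * ζ ^ 2, ζ)) 0 0 := by
    intro b
    have h1 : HasDerivAt (fun ζ : ℂ => ((b * ζ ^ 2, ζ) : ℂ × ℂ)) ((0 : ℂ), (1 : ℂ)) 0 := by
      have h2 : HasDerivAt (fun ζ : ℂ => b * ζ ^ 2) 0 0 := by
        have := (hasDerivAt_pow 2 (0 : ℂ)).const_mul b
        simpa using this
      exact h2.prodMk (hasDerivAt_id (0 : ℂ))
    have h3 : HasFDerivAt g (ContinuousLinearMap.fst ℂ ℂ ℂ) ((fun ζ : ℂ => ((b * ζ ^ 2, ζ) : ℂ × ℂ)) 0) := by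
      have : ((fun ζ : ℂ => ((b * ζ ^ 2, ζ) : ℂ × ℂ)) 0) = 0 := by simp
      rw [this]; exact hgd
    have h4 := HasFDerivAt.comp_hasDerivAt (f := fun ζ : ℂ => ((b * ζ ^ 2, ζ) : ℂ × ℂ)) (0 : ℂ) h3 h1
    exact h4
  have hslan : ∀ b : ℂ, ‖b‖ ≤ 1 → AnalyticAt ℂ (fun ζ : ℂ => g (b * ζ ^ 2, ζ)) 0 := fun b hb =>
    (hsl b hb).analyticAt (ball_mem_nhds _ one_pos)
  have hsl0 : ∀ b : ℂ, (fun ζ : ℂ => g (b * ζ ^ 2, ζ)) 0 = 0 := by
    intro b
    show g (b * 0 ^ 2, 0) = 0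
    simp only [ne_eq, OfNat.ofNat_ne_zero, not_false_eq_true, zero_pow, mul_zero]
    exact h0
  -- expansion of the slice
  have hexp : (fun ζ : ℂ => g (0, ζ) - A * ζ ^ 2) =o[𝓝 0] fun ζ => ζ ^ 2 := by
    have e : (fun ζ : ℂ => g ((0 : ℂ) * ζ ^ 2, ζ)) = fun ζ : ℂ => g (0, ζ) := by
      funext ζ; rw [zero_mul]
    have h1 := taylor2 (hslan 0 (by simp))
    rw [(hsld 0).deriv] at h1
    have e0 : g ((0 : ℂ) * (0 : ℂ) ^ 2, (0 : ℂ)) = 0 := hsl0 0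
    refine h1.congr_left (fun ζ => ?_)
    rw [e, ← hA, e0, zero_mul]
    ring
  -- comparison of the slices
  have hcmp : ∀ b : ℂ, ‖b‖ ≤ 1 →
      (fun ζ : ℂ => g (b * ζ ^ 2, ζ) - g (0, ζ) - b * ζ ^ 2) =o[𝓝 0] fun ζ => ζ ^ 2 := by
    intro b hb
    rw [Asymptotics.isLittleO_iff]
    intro ε hε
    have h1 := hgd.isLittleO
    rw [Asymptotics.isLittleO_iff] at h1
    have h2 := h1 (show (0 : ℝ) < ε / 3 by positivity)
    obtain ⟨r, hr0, hr⟩ := Metric.eventually_nhds_iff_ball.1 h2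
    set ρ : ℝ := min r 1 with hρ
    have hρ0 : 0 < ρ := lt_min hr0 one_pos
    have hρ1 : ρ ≤ 1 := min_le_right _ _
    filter_upwards [ball_mem_nhds (0 : ℂ) hρ0] with y hy
    rw [mem_ball_zero_iff] at hy
    have hkey : ∀ x : ℂ, ‖x‖ < ρ → ‖g (x, y) - x‖ ≤ ε / 3 * ρ := by
      intro x hx
      have hmem : ((x, y) : ℂ × ℂ) ∈ ball (0 : ℂ × ℂ) ρ := by
        rw [mem_ball_zero_iff, Prod.norm_def, max_lt_iff]; exact ⟨hx, hy⟩
      have h3 := hr (x, y) (ball_subset_ball (min_le_left _ _) hmem)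
      rw [mem_ball_zero_iff] at hmem
      simp only [sub_zero, h0, ContinuousLinearMap.coe_fst'] at h3
      calc ‖g (x, y) - x‖ ≤ ε / 3 * ‖((x, y) : ℂ × ℂ)‖ := h3
        _ ≤ ε / 3 * ρ := by gcongr
    have hd1 : DifferentiableOn ℂ (fun x : ℂ => g (x, y) - x) (ball 0 ρ) := by
      refine DifferentiableOn.sub ?_ differentiableOn_id
      refine hg.comp (f := fun x : ℂ => (x, y)) (by fun_prop) ?_
      intro x hx
      rw [mem_ball_zero_iff] at hx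
      rw [mem_U2]
      exact ⟨hx.trans_le hρ1, hy.trans_le hρ1⟩
    have hmaps : MapsTo (fun x : ℂ => g (x, y) - x) (ball 0 ρ)
        (closedBall ((fun x : ℂ => g (x, y) - x) 0) (ε * ρ)) := by
      intro x hx
      rw [mem_ball_zero_iff] at hx
      rw [mem_closedBall, dist_eq_norm]
      have e1 := hkey x hx
      have e2 := hkey 0 (by simpa using hρ0)
      calc ‖g (x, y) - x - (g (0, y) - 0)‖ ≤ ‖g (x, y) - x‖ + ‖g (0, y) - 0‖ := norm_sub_le _ _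
        _ ≤ ε / 3 * ρ + ε / 3 * ρ := add_le_add e1 e2
        _ ≤ ε * ρ := by nlinarith [mul_pos hε hρ0]
    have hby : b * y ^ 2 ∈ ball (0 : ℂ) ρ := by
      rw [mem_ball_zero_iff, norm_mul, norm_pow]
      have hy1 : ‖y‖ < 1 := hy.trans_le hρ1
      nlinarith [norm_nonneg y, norm_nonneg b]
    have h5 := Complex.dist_le_div_mul_dist_of_mapsTo_ball hd1 hmaps hby
    rw [dist_eq_norm, dist_zero_right] at h5
    have h6 : ε * ρ / ρ = ε := by field_simp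
    rw [h6] at h5
    calc ‖g (b * y ^ 2, y) - g (0, y) - b * y ^ 2‖
        = ‖g (b * y ^ 2, y) - b * y ^ 2 - (g (0, y) - 0)‖ := by congr 1; ring
      _ ≤ ε * ‖b * y ^ 2‖ := h5
      _ = ε * (‖b‖ * ‖y ^ 2‖) := by rw [norm_mul]
      _ ≤ ε * (1 * ‖y ^ 2‖) := by gcongr
      _ = ε * ‖y ^ 2‖ := by rw [one_mul]
  -- the coefficient of the slice through `(b, ·)`
  have hcoef : ∀ b : ℂ, ‖b‖ ≤ 1 → (1 / 2) * iteratedDeriv 2 (fun ζ : ℂ => g (b * ζ ^ 2, ζ)) 0 = b + A := by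
    intro b hb
    refine coeff_unique (hslan b hb) (hsl0 b) (hsld b).deriv ?_
    refine ((hcmp b hb).add hexp).congr_left (fun ζ => ?_)
    ring
  -- Cauchy estimates
  have hcauchy : ∀ b : ℂ, ‖b‖ ≤ 1 → ‖b + A‖ ≤ M := by
    intro b hb
    have hR : ∀ R : ℝ, 0 < R → R < 1 → ‖b + A‖ * R ^ 2 ≤ M := by
      intro R hR0 hR1
      have hd2 : DiffContOnCl ℂ (fun ζ : ℂ => g (b * ζ ^ 2, ζ)) (ball 0 R) := by
        apply DifferentiableOn.diffContOnCl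
        refine (hsl b hb).mono ?_
        rw [closure_ball _ hR0.ne']
        exact closedBall_subset_ball hR1
      have h1 := Complex.norm_iteratedDeriv_le_of_forall_mem_sphere_norm_le 2 hR0 hd2 (C := M) (by
        intro ζ hζ
        rw [mem_sphere_zero_iff_norm] at hζ
        apply hM
        rw [mem_U2]
        refine ⟨?_, by rw [hζ]; exact hR1⟩
        simp only [norm_mul, norm_pow, hζ]
        nlinarith [norm_nonneg b])
      rw [← hcoef b hb, norm_mul]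
      have h2 : ‖(1 / 2 : ℂ)‖ = 1 / 2 := by norm_num
      rw [h2]
      have h3 : (Nat.factorial 2 : ℝ) = 2 := by norm_num [Nat.factorial]
      rw [h3, le_div_iff₀ (by positivity)] at h1
      linarith
    have hlim : Tendsto (fun R : ℝ => ‖b + A‖ * R ^ 2) (𝓝[<] 1) (𝓝 (‖b + A‖ * 1 ^ 2)) := by
      apply Tendsto.mono_left _ nhdsWithin_le_nhds
      exact Continuous.tendsto (by fun_prop) 1
    rw [one_pow, mul_one] at hlim
    refine le_of_tendsto hlim ?_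
    have : Ioo (0 : ℝ) 1 ∈ 𝓝[<] (1 : ℝ) := Ioo_mem_nhdsLT one_pos
    filter_upwards [this] with R hR'
    exact hR R hR'.1 hR'.2
  by_cases hA0 : A = 0
  · have := hcauchy 1 (by simp)
    rw [hA0] at this ⊢
    simpa using this
  · have hnA : ‖A‖ ≠ 0 := norm_ne_zero_iff.2 hA0
    have hnb : ‖A / (‖A‖ : ℂ)‖ = 1 := by
      rw [norm_div, Complex.norm_real, norm_norm, div_self hnA]
    have h1 := hcauchy (A / (‖A‖ : ℂ)) hnb.le
    have h2 : A / (‖A‖ : ℂ) + A = ((1 + ‖A‖ : ℝ) : ℂ) * (A / (‖A‖ : ℂ)) := by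
      have : (‖A‖ : ℂ) ≠ 0 := by exact_mod_cast hnA
      push_cast
      field_simp
    rw [h2, norm_mul, hnb, mul_one, Complex.norm_real, Real.norm_of_nonneg (by positivity)] at h1
    exact h1

lemma a102_shear (a : ℂ) : a102 (shear a) = a := by
  unfold a102 shear
  have : (fun ζ : ℂ => (((0 : ℂ), ζ) : ℂ × ℂ).1 + a * ((((0 : ℂ), ζ) : ℂ × ℂ).2) ^ 2) =
      fun ζ : ℂ => a * ζ ^ 2 := by
    funext ζ; simp
  rw [this]
  simp
  ring

lemma a102_le {f : ℂ × ℂ → ℂ × ℂ} {M : ℝ} (hf : f ∈ S0M M) : ‖a102 f‖ ≤ M - 1 := by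
  obtain ⟨⟨F, hF, hF0⟩, hM⟩ := hf
  have hF1 := hF.holo 0 le_rfl
  have hfd : DifferentiableOn ℂ f U2 := hF1.congr (fun z hz => (hF0 z hz).symm)
  have hev : F 0 =ᶠ[𝓝 0] f := by
    filter_upwards [isOpen_U2.mem_nhds zero_mem_U2] with z hz using hF0 z hz
  have hd : fderiv ℂ f 0 = ContinuousLinearMap.id ℂ (ℂ × ℂ) := by
    rw [← hev.fderiv_eq, hF.deriv 0 le_rfl]; simp
  have hfd0 : DifferentiableAt ℂ f 0 := hfd.differentiableAt (isOpen_U2.mem_nhds zero_mem_U2)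
  have h1 := coeff_bound (g := fun z => (f z).1) hfd.fst (by
    show (f 0).1 = 0
    rw [← hF0 0 zero_mem_U2, hF.zero 0 le_rfl]; rfl) (by
    have h2 : HasFDerivAt (fun z => (f z).1) ((ContinuousLinearMap.fst ℂ ℂ ℂ).comp
        (ContinuousLinearMap.id ℂ (ℂ × ℂ))) 0 := by
      rw [← hd]
      exact hfd0.hasFDerivAt.fst
    rw [h2.fderiv]
    rfl) (M := M) (fun z hz => by
    refine le_trans ?_ (hM z hz)
    rw [Prod.norm_def]; exact le_max_left _ _)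
  have h2 : a102 f = (1 / 2) * iteratedDeriv 2 (fun ζ : ℂ => (f (0, ζ)).1) 0 := rfl
  rw [h2]
  linarith

lemma one_sub_inv_lt {M : ℝ} (hM : 1 < M) : 1 - 1 / M < min 1 (M - 1) := by
  have hM0 : 0 < M := by linarith
  rw [lt_min_iff]
  constructor
  · have : 0 < 1 / M := by positivity
    linarith
  · have h1 : 1 - 1 / M = (M - 1) / M := by field_simp
    rw [h1, div_lt_iff₀ hM0]
    nlinarith

/-- The conjectured bound `max (|a^1_{0,2}|, |a^2_{2,0}|) ≤ 1 - 1/M` on `S⁰(𝕌², M)` fails for every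
`M > 1` (and in both coefficients): the value `min (1, M - 1) > 1 - 1/M` is attained, and every map
in `S⁰(𝕌², M)` satisfies `max (|a^1_{0,2}|, |a^2_{2,0}|) ≤ M - 1`, which is therefore the sharp
bound for `1 < M ≤ 2`. -/
theorem result : ∀ M : ℝ, 1 < M →
    1 - 1 / M < min 1 (M - 1) ∧
    (∃ f ∈ S0M M, a102 f = ((min 1 (M - 1) : ℝ) : ℂ)) ∧
    (∃ f ∈ S0M M, a220 f = ((min 1 (M - 1) : ℝ) : ℂ)) ∧
    (∀ f ∈ S0M M, ‖a102 f‖ ≤ M - 1 ∧ ‖a220 f‖ ≤ M - 1) := by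
  intro M hM
  have hmin : 0 < min 1 (M - 1) := lt_min one_pos (by linarith)
  have hmem : shear ((min 1 (M - 1) : ℝ) : ℂ) ∈ S0M M := by
    apply shear_mem_S0M
    · rw [Complex.norm_real, Real.norm_of_nonneg hmin.le]; exact min_le_left _ _
    · rw [Complex.norm_real, Real.norm_of_nonneg hmin.le]; exact min_le_right _ _
  refine ⟨one_sub_inv_lt hM, ⟨_, hmem, a102_shear _⟩, ⟨_, sw_mem_S0M hmem, ?_⟩, ?_⟩
  · rw [a220_sw, a102_shear]
  · intro f hf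
    refine ⟨a102_le hf, ?_⟩
    rw [← a102_sw]
    exact a102_le (sw_mem_S0M hf)

end Pool.Agent.Results.MP_5d6127_an.SharpBound
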